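import Pool.Agent.KS6_49.L8.Y548.OF.Ord

set_option autoImplicit false

/-! Sets of PA degree compute a member of every nonempty `Π⁰₁` class. -/

namespace Pool.Agent.KS6_49.PA

open Encodable Pool.Agent.Helper227 Pool.Agent.Y548 Pool.Agent.Y548.OF
open Nat.Partrec (Code)

/-- The set with characteristic sequence `D` has PA degree: it computes a total function `f` with
values `0` and `1` such that `f e` differs from `φ_e(e)` for every `e`, where `φ_e` is the `e`-th
partial recursive function. -/
def IsPA (D : ℕ → Bool) : Prop :=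
  ∃ f : ℕ → Bool, TLe f D ∧ ∀ e : ℕ, (f e).toNat ∉ (Denumerable.ofNat Code e).eval e

theorem exists_disj_code {α : Type*} [Primcodable α] {p q : α → Prop} (hp : S1 p) (hq : S1 q) :
    ∃ h : α → ℕ, Computable h ∧ ∀ a,
      (p a → ¬ q a → 0 ∈ (Denumerable.ofNat Code (h a)).eval (h a)) ∧
      (q a → ¬ p a → 1 ∈ (Denumerable.ofNat Code (h a)).eval (h a)) := by
  classical
  obtain ⟨p', hp', mp, ep⟩ := hp
  obtain ⟨q', hq', mq, eq⟩ := hq
  have h1 : Partrec fun a : α => (Nat.rfind fun n => Part.some (decide (p' a n ∨ q' a n))) := by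
    have : Computable₂ fun (a : α) (n : ℕ) => decide (p' a n ∨ q' a n) :=
      ((PrimrecPred.or hp' hq').decide).to_comp
    exact Partrec.rfind this.partrec₂
  have h2 : Partrec fun a : α => (Nat.rfind fun n => Part.some (decide (p' a n ∨ q' a n))).bind
      fun n => Part.some (if p' a n then 0 else 1) := by
    refine Partrec.bind h1 ?_
    have : Primrec fun x : α × ℕ => (if p' x.1 x.2 then 0 else 1) :=
      Primrec.ite hp' (Primrec.const 0) (Primrec.const 1)
    exact this.to_comp.partrec
  obtain ⟨c, hc⟩ := Nat.Partrec.Code.exists_code.1 h2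
  have hh : ∀ a : α, (Denumerable.ofNat Code (encode (Code.comp c (Code.const (encode a))))).eval
      (encode (Code.comp c (Code.const (encode a)))) =
      ((Nat.rfind fun n => Part.some (decide (p' a n ∨ q' a n))).bind
      fun n => Part.some (if p' a n then 0 else 1)) := by
    intro a
    rw [Denumerable.ofNat_encode]
    have h3 : (c.comp (Code.const (encode a))).eval (encode (c.comp (Code.const (encode a)))) =
        c.eval (encode a) := by
      simp [Code.eval]
    rw [h3, hc]
    simp only [encodek, Part.coe_some, Part.bind_some]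
    exact Part.map_id' (fun _ => rfl) _
  refine ⟨fun a => encode (Code.comp c (Code.const (encode a))), ?_, fun a => ⟨?_, ?_⟩⟩
  · have h3 : Primrec fun a : α => Code.comp c (Code.const (encode a)) :=
      Nat.Partrec.Code.primrec₂_comp.comp (Primrec.const c)
        (Nat.Partrec.Code.primrec_const.comp Primrec.encode)
    exact (Primrec.encode.comp h3).to_comp
  · intro h3 h4
    show 0 ∈ (Denumerable.ofNat Code (encode (Code.comp c (Code.const (encode a))))).eval
      (encode (Code.comp c (Code.const (encode a))))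
    rw [hh]
    rw [Part.mem_bind_iff]
    obtain ⟨n0, hn0⟩ := (ep a).1 h3
    have hex : ∃ n, p' a n ∨ q' a n := ⟨n0, Or.inl hn0⟩
    refine ⟨Nat.find hex, Nat.mem_rfind.2 ⟨?_, fun {m} hm => ?_⟩, ?_⟩
    · simpa using Nat.find_spec hex
    · simpa using Nat.find_min hex hm
    · rcases Nat.find_spec hex with h5 | h5
      · rw [if_pos h5]; simp
      · exact absurd ((eq a).2 ⟨_, h5⟩) h4
  · intro h3 h4
    show 1 ∈ (Denumerable.ofNat Code (encode (Code.comp c (Code.const (encode a))))).eval
      (encode (Code.comp c (Code.const (encode a))))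
    rw [hh]
    rw [Part.mem_bind_iff]
    obtain ⟨n0, hn0⟩ := (eq a).1 h3
    have hex : ∃ n, p' a n ∨ q' a n := ⟨n0, Or.inr hn0⟩
    refine ⟨Nat.find hex, Nat.mem_rfind.2 ⟨?_, fun {m} hm => ?_⟩, ?_⟩
    · simpa using Nat.find_spec hex
    · simpa using Nat.find_min hex hm
    · rw [if_neg fun h5 => h4 ((ep a).2 ⟨_, h5⟩)]; simp

section

variable (W : List Bool → Prop)

/-- some initial segment is bad -/
def BadP (σ : List Bool) : Prop := ∃ k, k ≤ σ.length ∧ W (σ.take k)

/-- all extensions of some length are bad -/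
def Dead (σ : List Bool) : Prop := ∃ n, ∀ τ ∈ strs n, BadP W (σ ++ τ)

theorem take_prim : Primrec fun y : List Bool × ℕ => y.1.take y.2 := by
  have : Primrec fun y : List Bool × ℕ =>
      ((List.range (min y.2 y.1.length)).map fun i => y.1.getD i false) := by
    refine Primrec.list_map (Primrec.list_range.comp (Primrec.nat_min.comp Primrec.snd
      (Primrec.list_length.comp Primrec.fst))) ?_
    exact (Primrec.list_getD false).comp (Primrec.fst.comp Primrec.fst) Primrec.snd
  refine this.of_eq fun y => ?_
  refine List.ext_getElem (by simp) fun i h5 h6 => ?_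
  simp at h5
  simp [h5]

theorem s1_BadP (hW : S1 W) : S1 (BadP W) := by
  refine S1.ex (p := fun (x : List Bool) (k : ℕ) => k ≤ x.length ∧ W (x.take k))
    (S1.and (S1.of_prim ?_) ?_)
  · exact Primrec.nat_le.comp Primrec.snd (Primrec.list_length.comp Primrec.fst)
  · exact hW.comp take_prim

theorem s1_Dead (hW : S1 W) : S1 (Dead W) := by
  refine S1.ex (p := fun (σ : List Bool) (n : ℕ) => ∀ τ ∈ strs n, BadP W (σ ++ τ)) ?_
  exact S1.all_mem (α := List Bool × ℕ) (p := fun x τ => BadP W (x.1 ++ τ)) (f := fun x => strs x.2)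
    ((s1_BadP W hW).comp (f := fun y : (List Bool × ℕ) × List Bool => y.1.1 ++ y.2)
      (Primrec.list_append.comp (Primrec.fst.comp Primrec.fst) Primrec.snd))
    (strs_prim.comp Primrec.snd)

variable {W}

theorem BadP.mono {σ τ : List Bool} (h : σ <+: τ) (hσ : BadP W σ) : BadP W τ := by
  obtain ⟨k, hk, h1⟩ := hσ
  obtain ⟨ρ, rfl⟩ := h
  refine ⟨k, by simp; omega, ?_⟩
  rwa [List.take_append_of_le_length hk]

theorem dead_of_bad {σ : List Bool} (h : W σ) : Dead W σ := by
  refine ⟨0, fun τ hτ => ?_⟩
  have : τ = [] := by simpa [strs] using hτ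
  subst this
  exact ⟨σ.length, by simp, by simpa using h⟩

theorem dead_split {σ : List Bool} (h0 : Dead W (σ ++ [false])) (h1 : Dead W (σ ++ [true])) :
    Dead W σ := by
  obtain ⟨n, hn⟩ := h0
  obtain ⟨m, hm⟩ := h1
  refine ⟨max n m + 1, fun τ hτ => ?_⟩
  obtain ⟨X, rfl⟩ := exists_of_mem_strs hτ
  let Y : ℕ → Bool := fun i => X (i + 1)
  have hpre : ∀ k, pre X (k + 1) = X 0 :: pre Y k := by
    intro k
    unfold pre
    rw [List.range_succ_eq_map]
    simp [Y, Function.comp_def]
  rw [hpre]
  cases hX : X 0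
  · refine BadP.mono ?_ (hn _ (pre_mem_strs Y n))
    rw [List.append_assoc]
    exact (List.prefix_append_right_inj _).2 (by
      simpa using pre_prefix Y (le_max_left n m))
  · refine BadP.mono ?_ (hm _ (pre_mem_strs Y m))
    rw [List.append_assoc]
    exact (List.prefix_append_right_inj _).2 (by
      simpa using pre_prefix Y (le_max_right n m))

theorem not_dead_nil (hne : ∃ X : ℕ → Bool, ∀ n, ¬ W (pre X n)) : ¬ Dead W [] := by
  obtain ⟨X, hX⟩ := hne
  rintro ⟨n, hn⟩
  obtain ⟨k, hk, h1⟩ := hn _ (pre_mem_strs X n)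
  rw [List.nil_append] at h1 hk
  rw [length_pre] at hk
  rw [take_pre _ _ _ hk] at h1
  exact hX k h1

end

/-- A set of PA degree computes a member of every nonempty `Π⁰₁` class. -/
theorem pa_basis {D : ℕ → Bool} (hD : IsPA D) {W : List Bool → Prop} (hW : S1 W)
    (hne : ∃ X : ℕ → Bool, ∀ n, ¬ W (pre X n)) :
    ∃ X : ℕ → Bool, (∀ n, ¬ W (pre X n)) ∧ TLe X D := by
  obtain ⟨f, hf, hdnc⟩ := hD
  have d0 : S1 fun σ : List Bool => Dead W (σ ++ [false]) :=
    (s1_Dead W hW).comp (Primrec.list_append.comp Primrec.id (Primrec.const [false]))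
  have d1 : S1 fun σ : List Bool => Dead W (σ ++ [true]) :=
    (s1_Dead W hW).comp (Primrec.list_append.comp Primrec.id (Primrec.const [true]))
  obtain ⟨h, hh, hspec⟩ := exists_disj_code d0 d1
  let L : ℕ → List Bool := fun n => Nat.rec [] (fun _ σ => σ ++ [f (h σ)]) n
  have hL : ∀ n, L (n + 1) = L n ++ [f (h (L n))] := fun n => rfl
  let X : ℕ → Bool := fun n => f (h (L n))
  have hpre : ∀ n, pre X n = L n := by
    intro n
    induction n with
    | zero => rfl
    | succ n ih => rw [pre_succ, ih, hL]
  have hlive : ∀ n, ¬ Dead W (L n) := by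
    intro n
    induction n with
    | zero => exact not_dead_nil hne
    | succ n ih =>
      intro hd
      rw [hL] at hd
      have h1 := hdnc (h (L n))
      cases hb : f (h (L n))
      · rw [hb] at hd h1
        by_cases h2 : Dead W (L n ++ [true])
        · exact ih (dead_split hd h2)
        · exact h1 ((hspec (L n)).1 hd h2)
      · rw [hb] at hd h1
        by_cases h2 : Dead W (L n ++ [false])
        · exact ih (dead_split h2 hd)
        · exact h1 ((hspec (L n)).2 hd h2)
  refine ⟨X, fun n hn => hlive n (by rw [← hpre]; exact dead_of_bad hn), ?_⟩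
  rw [tLe_iff_SI]
  refine SI.trans ?_ hf
  have q : ∀ {β : Type} [Primcodable β] {u : β → List Bool} {v : β → Bool}, Primrec u → Primrec v →
      SI f fun x : β => f (h (u x)) = v x := by
    intro β _ u v hu hv
    exact SI.comp_computable (f := fun x : β => (h (u x), v x)) SI.query
      ((hh.comp hu.to_comp).pair hv.to_comp)
  have h3 : SI f fun x : ℕ × Bool => ∃ σ : List Bool, (σ.length = x.1 ∧ f (h σ) = x.2) ∧
      ∀ i < x.1, f (h (σ.take i)) = σ.getD i false := by
    refine SI.ex (p := fun (x : ℕ × Bool) (σ : List Bool) => (σ.length = x.1 ∧ f (h σ) = x.2) ∧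
      ∀ i < x.1, f (h (σ.take i)) = σ.getD i false) (SI.and (SI.and (SI.of_prim ?_) ?_) ?_)
    · exact Primrec.eq.comp (Primrec.list_length.comp Primrec.snd) (Primrec.fst.comp Primrec.fst)
    · exact q Primrec.snd (Primrec.snd.comp Primrec.fst)
    · refine SI.all_lt (α := (ℕ × Bool) × List Bool)
        (p := fun y i => f (h (y.2.take i)) = y.2.getD i false) (f := fun y => y.1.1) ?_
        (Primrec.fst.comp Primrec.fst)
      exact q (take_prim.comp ((Primrec.snd.comp Primrec.fst).pair Primrec.snd))
        ((Primrec.list_getD false).comp (Primrec.snd.comp Primrec.fst) Primrec.snd)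
  refine h3.of_eq fun x => ?_
  rcases x with ⟨n, b⟩
  simp only
  constructor
  · rintro ⟨σ, ⟨h4, h5⟩, h6⟩
    have h7 : ∀ i ≤ n, σ.take i = L i := by
      intro i
      induction i with
      | zero => intro _; simp [L]
      | succ i ih =>
        intro hi
        have h8 := h6 i (by omega)
        rw [ih (by omega)] at h8
        rw [hL, List.take_add_one, ih (by omega), h8]
        congr 1
        have : i < σ.length := by omega
        simp [this]
    have h8 := h7 n le_rfl
    rw [← h4, List.take_length] at h8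
    rw [← h5, h8, h4]
  · intro h4
    refine ⟨L n, ⟨by rw [← hpre]; simp, h4⟩, fun i hi => ?_⟩
    rw [← hpre n, take_pre _ _ _ hi.le, pre_getD _ _ _ _ hi, hpre]

end Pool.Agent.KS6_49.PA
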