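import Pool.Agent.KS6_49.PA.Basis

set_option autoImplicit false

/-! Changing the signs of the square roots in an ordering of the field. -/

namespace Pool.Agent.KS6_49.PA

open Encodable Pool.Agent.Helper227 Pool.Agent.Y548 Pool.Agent.Y548.OF

/-- an interpretation of the generators that differs from the standard one in the signs of the
square roots only -/
structure Twist (r : ℝ) (g : ℕ → ℕ → ℝ) : Prop where
  ne3 : ∀ c j, c ≠ 3 → g c j = gR r c j
  sq : ∀ k, g 3 k * g 3 k = gR r 3 k * gR r 3 k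
  z : ∀ k, st k = 0 → g 3 k = gR r 3 k

theorem sound_sc' {g : ℕ → ℕ → ℝ} {cond : ℕ × ℕ × ℕ → Prop} {l l' : ℕ × ℕ × ℕ → ℕ}
    (h : ∀ p, cond p → ev g (l p) = ev g (l' p)) {x : ℕ × ℕ} (hx : sc cond l l' x) :
    ev g x.1 = ev g x.2 := by
  obtain ⟨p, hc, h1, h2⟩ := hx
  rw [← h1, ← h2]
  exact h p hc

theorem sound_ax' {r : ℝ} (hr : Good r) {g : ℕ → ℕ → ℝ} (hg : Twist r g) {x : ℕ × ℕ}
    (hx : Ax x) : ev g x.1 = ev g x.2 := by
  have g0 : ∀ j, g 0 j = (j : ℝ) := fun j => hg.ne3 0 j (by norm_num)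
  have g1 : ∀ j, g 1 j = -1 := fun j => hg.ne3 1 j (by norm_num)
  have g2 : ∀ j, g 2 j = yy j r := fun j => hg.ne3 2 j (by norm_num)
  have g4 : ∀ j, g 4 j = Polynomial.aeval r (polyL (Denumerable.ofNat (List ℕ) j)) :=
    fun j => hg.ne3 4 j (by norm_num)
  have g5 : ∀ j, g 5 j = gR r 5 j := fun j => hg.ne3 5 j (by norm_num)
  have g6 : ∀ c j, g (6 + c) j = 0 := fun c j => by
    rw [hg.ne3 (6 + c) j (by omega), add_comm 6 c]
    simp [gR]
  unfold Ax at hx
  rcases hx with h | h | h | h | h | h | h | h | h | h | h | h | h | h | h | h | h | h | h | h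
  · exact sound_sc' (fun p _ => by simp [ev_tg, ev_ta, g0]) h
  · exact sound_sc' (fun p _ => by simp only [ev_ta]; ring) h
  · exact sound_sc' (fun p _ => by simp only [ev_ta]; ring) h
  · exact sound_sc' (fun p _ => by simp [ev_tg, ev_ta, ev_tm, g0, g1]) h
  · exact sound_sc' (fun p _ => by simp [ev_tg, ev_tm, g0]) h
  · exact sound_sc' (fun p _ => by simp [ev_tg, ev_tm, g0]) h
  · exact sound_sc' (fun p _ => by simp only [ev_tm]; ring) h
  · exact sound_sc' (fun p _ => by simp only [ev_tm]; ring) h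
  · exact sound_sc' (fun p _ => by simp only [ev_ta, ev_tm]; ring) h
  · exact sound_sc' (fun p _ => by simp [ev_tg, ev_ta, g0]) h
  · exact sound_sc' (fun p _ => by simp [ev_tg, g1]) h
  · exact sound_sc' (fun p _ => by
      simp only [ev_tg, ev_ta, ev_tm, g2, g0, yy]; push_cast; ring) h
  · refine sound_sc' (fun p hp => ?_) h
    have h1 := hg.z p.1 hp
    simp only [ev_tg]
    rw [h1, g0]
    simp [gR, ww_of_st_zero hp]
  · refine sound_sc' (fun p hp => ?_) h
    have h1 := ww_sq hr p.1
    have h2 : gR r 3 p.1 = ww r p.1 := rfl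
    simp only [ev_tg, ev_tm]
    rw [hg.sq, h2, ← pow_two, h1, g2]
    simp [uu, hp]
  · refine sound_sc' (fun p hp => ?_) h
    have h1 := ww_sq hr p.1
    have h2 : gR r 3 p.1 = ww r p.1 := rfl
    simp only [ev_tg, ev_tm]
    rw [hg.sq, h2, ← pow_two, h1, g2, g1]
    simp [uu, hp]
  · exact sound_sc' (fun p _ => by simp [ev_tg, g0, g4, polyL]) h
  · refine sound_sc' (fun p _ => ?_) h
    simp only [ev_tg, ev_ta, ev_tm, g0, g2, g4, Denumerable.ofNat_encode, polyL]
    simp [yy]
  · refine sound_sc' (fun p hp => ?_) h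
    have h1 := gd_ne hr.tr hp
    simp only [ev_tg, ev_ta, ev_tm, g0, g1, g4, g5, gR]
    rw [if_pos hp]
    have h2 : Polynomial.aeval r (polyL (Denumerable.ofNat (List ℕ) (Nat.unpair p.1).1)) +
        -1 * Polynomial.aeval r (polyL (Denumerable.ofNat (List ℕ) (Nat.unpair p.1).2)) =
        Polynomial.aeval r (polyL (Denumerable.ofNat (List ℕ) (Nat.unpair p.1).1)) -
        Polynomial.aeval r (polyL (Denumerable.ofNat (List ℕ) (Nat.unpair p.1).2)) := by ring
    rw [h2, inv_mul_cancel₀ h1]
    simp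
  · refine sound_sc' (fun p hp => ?_) h
    simp only [ev_tg, g0, g5, gR]
    rw [if_neg hp]
    simp
  · refine sound_sc' (fun p _ => ?_) h
    simp only [ev_tg, g0, g6]
    simp

theorem sound' {r : ℝ} (hr : Good r) {g : ℕ → ℕ → ℝ} (hg : Twist r g) {s t : ℕ} (h : Eqv s t) :
    ev g s = ev g t := by
  induction h with
  | refl t => rfl
  | symm _ ih => exact ih.symm
  | trans _ _ ih1 ih2 => exact ih1.trans ih2
  | cta _ _ ih1 ih2 => rw [ev_ta, ev_ta, ih1, ih2]
  | ctm _ _ ih1 ih2 => rw [ev_tm, ev_tm, ih1, ih2]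
  | ax h => exact sound_ax' hr hg h

/-- change the signs of the square roots `tg 3 k` with `fl k = true` in a term -/
def fi (fl : ℕ → Bool) (t : ℕ) : ℕ :=
  if _h0 : t % 3 = 0 then
    (if (t / 3).unpair.1 = 3 ∧ fl (t / 3).unpair.2 = true then tm (tg 1 0) t else t)
  else if t % 3 = 1 then ta (fi fl (t / 3).unpair.1) (fi fl (t / 3).unpair.2)
  else tm (fi fl (t / 3).unpair.1) (fi fl (t / 3).unpair.2)
termination_by t
decreasing_by
  all_goals
    have h1 := Nat.unpair_left_le (t / 3)
    have h2 := Nat.unpair_right_le (t / 3)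
    omega

theorem fi_tg (fl : ℕ → Bool) (c j : ℕ) :
    fi fl (tg c j) = if c = 3 ∧ fl j = true then tm (tg 1 0) (tg c j) else tg c j := by
  rw [fi, dif_pos (by unfold tg; omega)]
  have : tg c j / 3 = Nat.pair c j := by unfold tg; omega
  rw [this, Nat.unpair_pair]

theorem fi_ta (fl : ℕ → Bool) (s t : ℕ) : fi fl (ta s t) = ta (fi fl s) (fi fl t) := by
  rw [fi, dif_neg (by unfold ta; omega), if_pos (by unfold ta; omega)]
  have : ta s t / 3 = Nat.pair s t := by unfold ta; omega
  rw [this, Nat.unpair_pair]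

theorem fi_tm (fl : ℕ → Bool) (s t : ℕ) : fi fl (tm s t) = tm (fi fl s) (fi fl t) := by
  rw [fi, dif_neg (by unfold tm; omega), if_neg (by unfold tm; omega)]
  have : tm s t / 3 = Nat.pair s t := by unfold tm; omega
  rw [this, Nat.unpair_pair]

theorem term_induction {P : ℕ → Prop} (h1 : ∀ c j, P (tg c j)) (h2 : ∀ s t, P s → P t → P (ta s t))
    (h3 : ∀ s t, P s → P t → P (tm s t)) (t : ℕ) : P t := by
  induction t using Nat.strong_induction_on with
  | _ t ih =>
    rcases t_cases t with ⟨c, j, rfl⟩ | ⟨s, u, rfl, h4, h5⟩ | ⟨s, u, rfl, h4, h5⟩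
    · exact h1 c j
    · exact h2 s u (ih s h4) (ih u h5)
    · exact h3 s u (ih s h4) (ih u h5)

/-- the twisted interpretation -/
noncomputable def tw (g : ℕ → ℕ → ℝ) (fl : ℕ → Bool) (c j : ℕ) : ℝ :=
  if c = 3 ∧ fl j = true then - g c j else g c j

theorem ev_fi {g : ℕ → ℕ → ℝ} (hg : g 1 0 = -1) (fl : ℕ → Bool) (t : ℕ) :
    ev g (fi fl t) = ev (tw g fl) t := by
  induction t using term_induction with
  | h1 c j =>
    rw [fi_tg, ev_tg, tw]
    split_ifs with h
    · rw [ev_tm, ev_tg, ev_tg, hg]; ring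
    · rw [ev_tg]
  | h2 s t hs ht => rw [fi_ta, ev_ta, ev_ta, hs, ht]
  | h3 s t hs ht => rw [fi_tm, ev_tm, ev_tm, hs, ht]

theorem tw_tw (g : ℕ → ℕ → ℝ) (fl : ℕ → Bool) : tw (tw g fl) fl = g := by
  funext c j
  unfold tw
  split_ifs with h
  · rw [neg_neg]
  · rfl

theorem twist_tw {r : ℝ} {fl : ℕ → Bool} (hfl : ∀ k, st k = 0 → fl k = false) :
    Twist r (tw (gR r) fl) := by
  refine ⟨fun c j hc => ?_, fun k => ?_, fun k hk => ?_⟩
  · unfold tw; rw [if_neg (by simp [hc])]
  · unfold tw; split_ifs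
    · ring
    · rfl
  · unfold tw; rw [if_neg (by simp [hfl k hk])]

theorem fi_congr {r : ℝ} (hr : Good r) {fl : ℕ → Bool} (hfl : ∀ k, st k = 0 → fl k = false)
    {s t : ℕ} (h : Eqv s t) : Eqv (fi fl s) (fi fl t) := by
  rw [← ev_eq_iff hr, ev_fi rfl, ev_fi rfl]
  exact sound' hr (twist_tw hfl) h

theorem fi_fi {r : ℝ} (hr : Good r) (fl : ℕ → Bool) (t : ℕ) : Eqv (fi fl (fi fl t)) t := by
  rw [← ev_eq_iff hr, ev_fi rfl, ev_fi (g := tw (gR r) fl), tw_tw]
  unfold tw
  rw [if_neg (by simp)]
  rfl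

theorem fi_zero (fl : ℕ → Bool) : fi fl (tg 0 0) = tg 0 0 := by
  rw [fi_tg, if_neg (by simp)]

theorem fi_neg (fl : ℕ → Bool) (t : ℕ) : fi fl (tm (tg 1 0) t) = tm (tg 1 0) (fi fl t) := by
  rw [fi_tm, fi_tg, if_neg (by simp)]

theorem cone_flip {X : ℕ → Bool} (hX : Cone X) {fl : ℕ → Bool}
    (hfl : ∀ k, st k = 0 → fl k = false) : Cone fun t => X (fi fl t) := by
  obtain ⟨r, hr⟩ := exists_good
  have key : ∀ t, ¬ Eqv t (tg 0 0) → ¬ Eqv (fi fl t) (tg 0 0) := by
    intro t ht h
    apply ht
    have h1 := fi_congr hr hfl h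
    rw [fi_zero] at h1
    exact ((fi_fi hr fl t).symm).trans h1
  refine ⟨fun s t hs ht => ?_, fun s t hs ht => ?_, fun t ht he => ?_, fun t ht => ?_,
    fun s t he hs => ?_⟩
  · show X (fi fl (ta s t)) = true
    rw [fi_ta]; exact hX.add _ _ hs ht
  · show X (fi fl (tm s t)) = true
    rw [fi_tm]; exact hX.mul _ _ hs ht
  · have h1 := fi_congr hr hfl he
    rw [fi_zero] at h1
    exact hX.zero _ ht h1
  · show X (fi fl t) = true ∨ X (fi fl (tm (tg 1 0) t)) = true
    rw [fi_neg]
    exact hX.tot _ (key t ht)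
  · exact hX.congr _ _ (fi_congr hr hfl he) hs

/-- the substitution depends on a finite part of the sign changes -/
theorem fi_local (fl fl' : ℕ → Bool) (t : ℕ) (h : ∀ k < t, fl k = fl' k) : fi fl t = fi fl' t := by
  induction t using Nat.strong_induction_on with
  | _ t ih =>
    rcases t_cases t with ⟨c, j, rfl⟩ | ⟨s, u, rfl, h4, h5⟩ | ⟨s, u, rfl, h4, h5⟩
    · rw [fi_tg, fi_tg]
      by_cases hc : c = 3
      · have : j < tg c j := by
          have h3 : c + j ≤ Nat.pair c j := Nat.add_le_pair c j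
          unfold tg; omega
        rw [h j this]
      · simp [hc]
    · rw [fi_ta, fi_ta, ih s h4 fun k hk => h k (by omega), ih u h5 fun k hk => h k (by omega)]
    · rw [fi_tm, fi_tm, ih s h4 fun k hk => h k (by omega), ih u h5 fun k hk => h k (by omega)]

theorem fi_prim : Primrec fun x : List Bool × ℕ => fi (fun k => x.1.getD k false) x.2 := by
  have key : Primrec₂ fun (σ : List Bool) (t : ℕ) => fi (fun k => σ.getD k false) t := by
    refine Primrec.nat_strong_rec (fun (σ : List Bool) (t : ℕ) => fi (fun k => σ.getD k false) t)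
      (g := fun σ L => some (
        if L.length % 3 = 0 then
          (if (L.length / 3).unpair.1 = 3 ∧ σ.getD (L.length / 3).unpair.2 false = true then
            tm (tg 1 0) L.length else L.length)
        else if L.length % 3 = 1 then
          ta (L.getD (L.length / 3).unpair.1 0) (L.getD (L.length / 3).unpair.2 0)
        else tm (L.getD (L.length / 3).unpair.1 0) (L.getD (L.length / 3).unpair.2 0))) ?_ ?_
    · have l : Primrec fun x : List Bool × List ℕ => x.2.length :=
        Primrec.list_length.comp Primrec.snd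
      have l3 : Primrec fun x : List Bool × List ℕ => (x.2.length / 3).unpair :=
        Primrec.unpair.comp (Primrec.nat_div.comp l (Primrec.const 3))
      have u1 : Primrec fun x : List Bool × List ℕ => (x.2.length / 3).unpair.1 :=
        Primrec.fst.comp l3
      have u2 : Primrec fun x : List Bool × List ℕ => (x.2.length / 3).unpair.2 :=
        Primrec.snd.comp l3
      have m : Primrec fun x : List Bool × List ℕ => x.2.length % 3 :=
        Primrec.nat_mod.comp l (Primrec.const 3)
      have a1 : Primrec fun x : List Bool × List ℕ => x.2.getD (x.2.length / 3).unpair.1 0 :=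
        (Primrec.list_getD 0).comp Primrec.snd u1
      have a2 : Primrec fun x : List Bool × List ℕ => x.2.getD (x.2.length / 3).unpair.2 0 :=
        (Primrec.list_getD 0).comp Primrec.snd u2
      refine Primrec.option_some.comp (Primrec.ite (Primrec.eq.comp m (Primrec.const 0))
        (Primrec.ite (PrimrecPred.and (Primrec.eq.comp u1 (Primrec.const 3)) ?_)
          (ptm (Primrec.const _) l) l)
        (Primrec.ite (Primrec.eq.comp m (Primrec.const 1)) (pta a1 a2) (ptm a1 a2)))
      exact Primrec.eq.comp ((Primrec.list_getD false).comp Primrec.fst u2) (Primrec.const true)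
    · intro σ t
      have hget : ∀ i < t, ((List.range t).map fun t => fi (fun k => σ.getD k false) t).getD i 0 =
          fi (fun k => σ.getD k false) i := by
        intro i hi
        simp [List.getD, List.getElem?_range hi]
      simp only [List.length_map, List.length_range]
      rw [fi.eq_def]
      congr 1
      have b1 := Nat.unpair_left_le (t / 3)
      have b2 := Nat.unpair_right_le (t / 3)
      split_ifs with c1 c2 c3
      · rfl
      · rfl
      · rw [hget _ (by omega), hget _ (by omega)]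
      · rw [hget _ (by omega), hget _ (by omega)]
  exact key

/-- a cone with changed signs is computable in the cone and the sign changes -/
theorem tLe_flip {X fl D : ℕ → Bool} (hX : TLe X D) (hfl : TLe fl D) :
    TLe (fun t => X (fi fl t)) D := by
  rw [tLe_iff_SI] at *
  have h1 : SI D fun x : ℕ × Bool => ∃ σ : List Bool, (σ.length = x.1 ∧
      X (fi (fun k => σ.getD k false) x.1) = x.2) ∧ ∀ i < x.1, fl i = σ.getD i false := by
    refine SI.ex (p := fun (x : ℕ × Bool) (σ : List Bool) => (σ.length = x.1 ∧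
      X (fi (fun k => σ.getD k false) x.1) = x.2) ∧ ∀ i < x.1, fl i = σ.getD i false)
      (SI.and (SI.and (SI.of_prim ?_) ?_) ?_)
    · exact Primrec.eq.comp (Primrec.list_length.comp Primrec.snd) (Primrec.fst.comp Primrec.fst)
    · exact hX.comp (f := fun y : (ℕ × Bool) × List Bool =>
        (fi (fun k => y.2.getD k false) y.1.1, y.1.2))
        ((fi_prim.comp (Primrec.snd.pair (Primrec.fst.comp Primrec.fst))).pair
          (Primrec.snd.comp Primrec.fst))
    · refine SI.all_lt (α := (ℕ × Bool) × List Bool)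
        (p := fun y i => fl i = y.2.getD i false) (f := fun y => y.1.1) ?_
        (Primrec.fst.comp Primrec.fst)
      exact hfl.comp (f := fun y : ((ℕ × Bool) × List Bool) × ℕ => (y.2, y.1.2.getD y.2 false))
        (Primrec.snd.pair ((Primrec.list_getD false).comp (Primrec.snd.comp Primrec.fst)
          Primrec.snd))
  refine h1.of_eq fun x => ?_
  constructor
  · rintro ⟨σ, ⟨h2, h3⟩, h4⟩
    rw [← h3, fi_local fl _ x.1 fun k hk => h4 k hk]
  · intro h2
    refine ⟨pre fl x.1, ⟨by simp, ?_⟩, fun i hi => (pre_getD fl _ _ _ hi).symm⟩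
    rw [← h2, fi_local _ fl x.1 fun k hk => pre_getD fl _ _ _ hk]

end Pool.Agent.KS6_49.PA
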