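import Pool.Agent.KS6_49.PA.Flip

set_option autoImplicit false

/-! The degrees of the ordered fields containing the field. -/

namespace Pool.Agent.KS6_49.PA

open Encodable Pool.Agent.Helper227 Pool.Agent.Y548 Pool.Agent.Y548.OF
open Nat.Partrec (Code)

open Classical in
/-- the characteristic sequence of a set of natural numbers -/
noncomputable def ind (p : ℕ → Prop) : ℕ → Bool := fun n => decide (p n)

/-- A field computable in (the set with characteristic sequence) `D`: the domain is a set of natural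
numbers that is Turing reducible to `D`, and addition and multiplication are recursive in `D`. -/
structure FieldIn (D : ℕ → Bool) where
  /-- the domain -/
  dom : ℕ → Prop
  /-- the field structure on the domain -/
  fld : Field {n : ℕ // dom n}
  dom_rec : TLe (ind dom) D
  add_rec : ∃ f : ℕ → ℕ → ℕ, RecursiveIn {chi D} (fun p : ℕ × ℕ => Part.some (f p.1 p.2)) ∧
    ∀ a b : {n : ℕ // dom n}, ((a + b : {n : ℕ // dom n}) : ℕ) = f a b
  mul_rec : ∃ f : ℕ → ℕ → ℕ, RecursiveIn {chi D} (fun p : ℕ × ℕ => Part.some (f p.1 p.2)) ∧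
    ∀ a b : {n : ℕ // dom n}, ((a * b : {n : ℕ // dom n}) : ℕ) = f a b

/-- the underlying field -/
abbrev FieldIn.Carrier {D : ℕ → Bool} (F : FieldIn D) : Type := {n : ℕ // F.dom n}

instance {D : ℕ → Bool} (F : FieldIn D) : Field F.Carrier := F.fld

/-- The set of codes of the pairs `(a, b)` with `a < b`. -/
def ordCode {D : ℕ → Bool} {K : FieldIn D} (lt : K.Carrier → K.Carrier → Prop) (n : ℕ) : Prop :=
  ∃ a b : K.Carrier, lt a b ∧ n = Nat.pair a b

theorem si_of_computable₂ {D : ℕ → Bool} {f : ℕ → ℕ → ℕ} (hf : Computable₂ f) :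
    RecursiveIn {chi D} (fun p : ℕ × ℕ => Part.some (f p.1 p.2)) := by
  refine SI.iff_recIn.2 ?_
  have h1 : SI D fun y : ℕ × ℕ => y.1 = y.2 := SI.of_prim (Primrec.eq.comp Primrec.fst Primrec.snd)
  have h2 : SI D fun x : (ℕ × ℕ) × ℕ => x.2 = f x.1.1 x.1.2 :=
    SI.comp_computable (f := fun x : (ℕ × ℕ) × ℕ => (x.2, f x.1.1 x.1.2)) h1
      (Computable.snd.pair (hf.comp (Computable.fst.comp Computable.fst)
        (Computable.snd.comp Computable.fst)))
  exact h2.of_eq fun x => by simp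

theorem tLe_ind_of_computable {D : ℕ → Bool} {p : ℕ → Prop} (hp : ComputablePred p) :
    TLe (ind p) D := by
  rw [tLe_iff_SI]
  obtain ⟨h1, h2⟩ := ComputablePred.computable_iff_re_compl_re'.1 hp
  have h3 : SI D fun x : ℕ × Bool => (p x.1 ∧ x.2 = true) ∨ (¬ p x.1 ∧ x.2 = false) := by
    refine SI.or (SI.and ?_ (SI.of_prim (Primrec.eq.comp Primrec.snd (Primrec.const _))))
      (SI.and ?_ (SI.of_prim (Primrec.eq.comp Primrec.snd (Primrec.const _))))
    · exact (SI.of_s1 (S1.of_re h1)).comp Primrec.fst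
    · exact (SI.of_s1 (S1.of_re h2)).comp Primrec.fst
  refine h3.of_eq fun x => ?_
  rcases x with ⟨n, b⟩
  cases b <;> simp [ind]

/-- a computable field is computable in every set -/
def toIn (D : ℕ → Bool) (F : ComputableField) : FieldIn D where
  dom := F.dom
  fld := F.fld
  dom_rec := tLe_ind_of_computable F.dom_comp
  add_rec := by
    obtain ⟨f, hf, h⟩ := F.add_comp
    exact ⟨f, si_of_computable₂ hf, h⟩
  mul_rec := by
    obtain ⟨f, hf, h⟩ := F.mul_comp
    exact ⟨f, si_of_computable₂ hf, h⟩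

/-- iterates of a recursive function -/
theorem si_iter {D : ℕ → Bool} {g : ℕ → ℕ} (hg : SI D fun x : ℕ × ℕ => g x.1 = x.2) (c : ℕ) :
    SI D fun x : ℕ × ℕ => (Nat.rec (motive := fun _ => ℕ) c (fun _ v => g v) x.1) = x.2 := by
  have h1 : SI D fun x : ℕ × ℕ => ∃ L : List ℕ, (L.getD 0 0 = c ∧ L.getD x.1 0 = x.2) ∧
      ∀ i < x.1, g (L.getD i 0) = L.getD (i + 1) 0 := by
    refine SI.ex (p := fun (x : ℕ × ℕ) (L : List ℕ) => (L.getD 0 0 = c ∧ L.getD x.1 0 = x.2) ∧
      ∀ i < x.1, g (L.getD i 0) = L.getD (i + 1) 0) (SI.and (SI.of_prim (PrimrecPred.and ?_ ?_)) ?_)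
    · exact Primrec.eq.comp ((Primrec.list_getD 0).comp Primrec.snd (Primrec.const 0))
        (Primrec.const c)
    · exact Primrec.eq.comp ((Primrec.list_getD 0).comp Primrec.snd (Primrec.fst.comp Primrec.fst))
        (Primrec.snd.comp Primrec.fst)
    · refine SI.all_lt (α := (ℕ × ℕ) × List ℕ)
        (p := fun y i => g (y.2.getD i 0) = y.2.getD (i + 1) 0) (f := fun y => y.1.1) ?_
        (Primrec.fst.comp Primrec.fst)
      exact hg.comp (f := fun z : ((ℕ × ℕ) × List ℕ) × ℕ => (z.1.2.getD z.2 0, z.1.2.getD (z.2 + 1) 0))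
        (((Primrec.list_getD 0).comp (Primrec.snd.comp Primrec.fst) Primrec.snd).pair
          ((Primrec.list_getD 0).comp (Primrec.snd.comp Primrec.fst)
            (Primrec.succ.comp Primrec.snd)))
  refine h1.of_eq fun x => ?_
  rcases x with ⟨n, v⟩
  simp only
  let F : ℕ → ℕ := fun n => Nat.rec (motive := fun _ => ℕ) c (fun _ v => g v) n
  constructor
  · rintro ⟨L, ⟨h2, h3⟩, h4⟩
    have h5 : ∀ i ≤ n, L.getD i 0 = F i := by
      intro i
      induction i with
      | zero => intro _; exact h2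
      | succ i ih =>
        intro hi
        rw [← h4 i (by omega), ih (by omega)]
    rw [← h3, h5 n le_rfl]
  · intro h2
    have hget : ∀ i ≤ n, ((List.range (n + 1)).map F).getD i 0 = F i := by
      intro i hi
      simp [List.getD, List.getElem?_range (show i < n + 1 by omega)]
    refine ⟨(List.range (n + 1)).map F, ⟨?_, ?_⟩, fun i hi => ?_⟩
    · rw [hget 0 (by omega)]
      rfl
    · rw [hget n le_rfl]; exact h2
    · rw [hget i (by omega), hget (i + 1) (by omega)]

theorem sa_of_eval {e : ℕ} (h : 0 ∈ (Denumerable.ofNat Code e).eval e) : SA e := by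
  obtain ⟨t, h2, h3⟩ := exists_first h
  exact ⟨t, st_one.2 (by simpa using ⟨h2, h3⟩)⟩

theorem sb_of_eval {e : ℕ} (h : 1 ∈ (Denumerable.ofNat Code e).eval e) : SB e := by
  obtain ⟨t, h2, h3⟩ := exists_first h
  exact ⟨t, st_two.2 (by simpa using ⟨h2, h3⟩)⟩

/-- If a field computable in `D` with an ordering computable in `D` contains a copy of the field
then `D` has PA degree. -/
theorem pa_of_embed {r : ℝ} (hr : Good r) {D : ℕ → Bool} (K : FieldIn D)
    (lt : K.Carrier → K.Carrier → Prop) (hlt : IsOrdering lt)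
    (hc : TLe (ind (ordCode lt)) D) (χ : FF hr →+* K.Carrier) : IsPA D := by
  classical
  obtain ⟨fa, hfa, ha⟩ := K.add_rec
  obtain ⟨fm, hfm, hm⟩ := K.mul_rec
  let yF : ℕ → FF hr := fun n => evF hr (tg 2 n)
  have hy0 : ∀ n, yF n ≠ 0 := by
    intro n h
    have h1 : ev (gR r) (tg 2 n) = 0 := congrArg Subtype.val h
    rw [ev_tg] at h1
    exact yy_ne_zero hr.tr n h1
  have hys : ∀ n, yF (n + 1) = yF n * yF n + (-2) := by
    intro n
    apply Subtype.ext
    show ev (gR r) (tg 2 (n + 1)) = ev (gR r) (tg 2 n) * ev (gR r) (tg 2 n) + ((-2 : FF hr) : ℝ)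
    have h2 : ((-2 : FF hr) : ℝ) = -2 := by
      rw [Subfield.coe_neg]
      rfl
    rw [ev_tg, ev_tg, h2]
    simp only [gR, yy]
    ring
  let c2 : K.Carrier := χ (-2)
  let g : ℕ → ℕ := fun v => fa (fm v v) c2.1
  let y' : ℕ → ℕ := fun n => Nat.rec (motive := fun _ => ℕ) (χ (yF 0) : K.Carrier).1 (fun _ v => g v) n
  have hy' : ∀ n, y' n = (χ (yF n)).1 := by
    intro n
    induction n with
    | zero => rfl
    | succ n ih =>
      show fa (fm (y' n) (y' n)) c2.1 = _
      rw [ih, ← hm, ← ha, hys, map_add, map_mul]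
  have hg : SI D fun x : ℕ × ℕ => g x.1 = x.2 := by
    have e1 := SI.iff_recIn.1 hfa
    have e2 := SI.iff_recIn.1 hfm
    have e3 : SI D fun x : ℕ × ℕ => ∃ u : ℕ, u ∈ Part.some (fm x.1 x.1) ∧
        x.2 ∈ Part.some (fa u c2.1) := by
      refine SI.ex (p := fun (x : ℕ × ℕ) (u : ℕ) => u ∈ Part.some (fm x.1 x.1) ∧
        x.2 ∈ Part.some (fa u c2.1)) (SI.and ?_ ?_)
      · exact e2.comp (f := fun y : (ℕ × ℕ) × ℕ => ((y.1.1, y.1.1), y.2))
          (((Primrec.fst.comp Primrec.fst).pair (Primrec.fst.comp Primrec.fst)).pair Primrec.snd)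
      · exact e1.comp (f := fun y : (ℕ × ℕ) × ℕ => ((y.2, c2.1), y.1.2))
          ((Primrec.snd.pair (Primrec.const _)).pair (Primrec.snd.comp Primrec.fst))
    refine e3.of_eq fun x => ?_
    simp only [Part.mem_some_iff, exists_eq_left]
    exact eq_comm
  have hyg : SI D fun x : ℕ × ℕ => y' x.1 = x.2 := si_iter hg _
  refine ⟨fun n => decide (lt 0 (χ (yF (2 * n)))), ?_, fun e he => ?_⟩
  · rw [tLe_iff_SI]
    have h0 := tLe_iff_SI.1 hc
    have h1 : SI D fun x : ℕ × Bool => ∃ v : ℕ, y' (2 * x.1) = v ∧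
        ind (ordCode lt) (Nat.pair (0 : K.Carrier).1 v) = x.2 := by
      refine SI.ex (p := fun (x : ℕ × Bool) (v : ℕ) => y' (2 * x.1) = v ∧
        ind (ordCode lt) (Nat.pair (0 : K.Carrier).1 v) = x.2) (SI.and ?_ ?_)
      · exact hyg.comp (f := fun y : (ℕ × Bool) × ℕ => (2 * y.1.1, y.2))
          ((Primrec.nat_mul.comp (Primrec.const 2) (Primrec.fst.comp Primrec.fst)).pair Primrec.snd)
      · exact h0.comp (f := fun y : (ℕ × Bool) × ℕ => (Nat.pair (0 : K.Carrier).1 y.2, y.1.2))
          ((Primrec₂.natPair.comp (Primrec.const _) Primrec.snd).pair (Primrec.snd.comp Primrec.fst))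
    refine h1.of_eq fun x => ?_
    rw [exists_eq_left', hy']
    have : ordCode lt (Nat.pair (0 : K.Carrier).1 (χ (yF (2 * x.1))).1) ↔
        lt 0 (χ (yF (2 * x.1))) := by
      constructor
      · rintro ⟨a, b, h1, h2⟩
        rw [Nat.pair_eq_pair] at h2
        rw [Subtype.ext h2.1, Subtype.ext h2.2]
        exact h1
      · intro h
        exact ⟨_, _, h, rfl⟩
    simp only [ind, this]
  · have hA : ∀ n, SA n → lt 0 (χ (yF (2 * n))) := by
      rintro n ⟨t, ht⟩
      have h1 : yF (2 * n) = evF hr (tg 3 (Nat.pair n t)) * evF hr (tg 3 (Nat.pair n t)) := by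
        rw [← evF_tm, evF_eq_iff]
        refine Eqv.symm (Eqv.ax ?_)
        unfold Ax; iterate 13 right
        left; exact ⟨(Nat.pair n t, 0, 0), ht, rfl, by simp⟩
      rw [h1, map_mul]
      refine sq_pos_of_ordering hlt fun h2 => ?_
      have h3 : χ (yF (2 * n)) = 0 := by rw [h1, map_mul, h2, mul_zero]
      exact hy0 _ ((map_eq_zero_iff χ χ.injective).1 h3)
    have hB : ∀ n, SB n → ¬ lt 0 (χ (yF (2 * n))) := by
      rintro n ⟨t, ht⟩ hpos
      have h1 : - yF (2 * n) = evF hr (tg 3 (Nat.pair n t)) * evF hr (tg 3 (Nat.pair n t)) := by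
        have : - yF (2 * n) = evF hr (tm (tg 1 0) (tg 2 (2 * n))) := by
          rw [evF_tm, evF_neg_one, neg_one_mul]
        rw [this, ← evF_tm, evF_eq_iff]
        refine Eqv.symm (Eqv.ax ?_)
        unfold Ax; iterate 14 right
        left; exact ⟨(Nat.pair n t, 0, 0), ht, rfl, by simp⟩
      have h2 : lt 0 (- χ (yF (2 * n))) := by
        rw [← map_neg, h1, map_mul]
        refine sq_pos_of_ordering hlt fun h2 => ?_
        have h3 : χ (- yF (2 * n)) = 0 := by rw [h1, map_mul, h2, mul_zero]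
        rw [map_neg, neg_eq_zero] at h3
        exact hy0 _ ((map_eq_zero_iff χ χ.injective).1 h3)
      have h3 := hlt.add _ _ (χ (yF (2 * n))) h2
      rw [zero_add, neg_add_cancel] at h3
      exact hlt.irrefl _ (hlt.trans _ _ _ hpos h3)
    by_cases hp : lt 0 (χ (yF (2 * e)))
    · have he : 1 ∈ (Denumerable.ofNat Code e).eval e := by simpa [hp] using he
      exact hB e (sb_of_eval he) hp
    · have he : 0 ∈ (Denumerable.ofNat Code e).eval e := by simpa [hp] using he
      exact hp (hA e (sa_of_eval he))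

/-- A computable enumeration of places of square roots, with a computable inverse. -/
theorem exists_places : ∃ κ dec : ℕ → ℕ, Computable κ ∧ Computable dec ∧
    (∀ i, st (κ i) = 1) ∧ ∀ i, dec (κ i) = i := by
  let e : ℕ → ℕ := fun i => encode (Code.comp Code.zero (Code.const i))
  have he : Primrec e := Primrec.encode.comp (Nat.Partrec.Code.primrec₂_comp.comp
    (Primrec.const Code.zero) Nat.Partrec.Code.primrec_const)
  have hinj : ∀ i j, e i = e j → i = j := by
    intro i j h
    have h1 := Encodable.encode_injective h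
    injection h1 with _ h2
    exact Nat.Partrec.Code.const_inj h2
  have hex : ∀ i, ∃ k, k.unpair.1 = e i ∧ st k = 1 := by
    intro i
    have h1 : 0 ∈ (Denumerable.ofNat Code (e i)).eval (e i) := by
      simp only [e, Denumerable.ofNat_encode, Code.eval, Code.eval_const]
      exact Part.mem_bind_iff.2 ⟨i, Part.mem_some _, Part.mem_some _⟩
    obtain ⟨t, ht⟩ := sa_of_eval h1
    exact ⟨Nat.pair (e i) t, by simp, ht⟩
  have hgr : PrimrecPred fun x : ℕ × ℕ => x.2.unpair.1 = e x.1 ∧ st x.2 = 1 :=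
    PrimrecPred.and
      (Primrec.eq.comp (Primrec.fst.comp (Primrec.unpair.comp Primrec.snd)) (he.comp Primrec.fst))
      (Primrec.eq.comp (st_prim.comp Primrec.snd) (Primrec.const 1))
  obtain ⟨κ, hκ, hκ'⟩ := S1.choose (p := fun i k : ℕ => k.unpair.1 = e i ∧ st k = 1)
    (S1.of_prim hgr) hex
  have hle : ∀ i, ∀ k : ℕ, k.unpair.1 = e i → i ≤ k := by
    intro i k hk
    have h1 : i ≤ e i := by
      -- codes dominate
      have h2 : ∀ n, n ≤ encode (Code.const n) := by
        intro n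
        induction n with
        | zero => exact Nat.zero_le _
        | succ n ih =>
          have h3 := Nat.Partrec.Code.encode_lt_comp Code.succ (Code.const n)
          exact Nat.succ_le_of_lt (lt_of_le_of_lt ih h3.2)
      exact (h2 i).trans (Nat.Partrec.Code.encode_lt_comp Code.zero (Code.const i)).2.le
    have h2 := Nat.unpair_left_le k
    omega
  have hdex : ∀ k : ℕ, ∃ i, k.unpair.1 = e i ∨ (i = 0 ∧ ∀ j < k + 1, ¬ k.unpair.1 = e j) := by
    intro k
    by_cases h : ∃ i, k.unpair.1 = e i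
    · obtain ⟨i, hi⟩ := h
      exact ⟨i, Or.inl hi⟩
    · push Not at h
      exact ⟨0, Or.inr ⟨rfl, fun j _ => h j⟩⟩
  have hq : PrimrecPred fun x : ℕ × ℕ => x.1.unpair.1 = e x.2 :=
    Primrec.eq.comp (Primrec.fst.comp (Primrec.unpair.comp Primrec.fst)) (he.comp Primrec.snd)
  obtain ⟨dec, hdec, hdec'⟩ := S1.choose (p := fun k i : ℕ => k.unpair.1 = e i ∨
      (i = 0 ∧ ∀ j < k + 1, ¬ k.unpair.1 = e j)) (by
    refine S1.of_prim (PrimrecPred.or hq (PrimrecPred.and
      (Primrec.eq.comp Primrec.snd (Primrec.const 0)) ?_))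
    refine PP.all_lt (α := ℕ × ℕ) (p := fun x j => ¬ x.1.unpair.1 = e j) ?_
      (Primrec.succ.comp Primrec.fst)
    exact (hq.comp ((Primrec.fst.comp Primrec.fst).pair Primrec.snd)).not) hdex
  refine ⟨κ, dec, hκ, hdec, fun i => (hκ' i).2, fun i => ?_⟩
  rcases hdec' (κ i) with h | ⟨_, h⟩
  · exact (hinj _ _ ((hκ' i).1.symm.trans h)).symm
  · exact absurd (hκ' i).1 (h i (by have := hle i (κ i) (hκ' i).1; omega))

theorem cone_neg {X : ℕ → Bool} (hX : Cone X) {t : ℕ} (ht : ¬ Eqv t (tg 0 0)) :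
    X (tm (tg 1 0) t) = !X t := by
  cases h1 : X t
  · rcases hX.tot t ht with h2 | h2
    · rw [h1] at h2; cases h2
    · rw [h2]; rfl
  · cases h2 : X (tm (tg 1 0) t)
    · rfl
    · exfalso
      refine hX.zero _ (hX.add _ _ h2 h1) (Eqv.ax ?_)
      unfold Ax; iterate 3 right
      left; exact ⟨(t, 0, 0), trivial, rfl, rfl⟩

theorem root_ne_zero {k : ℕ} (hk : st k = 1) : ¬ Eqv (tg 3 k) (tg 0 0) := by
  obtain ⟨r, hr⟩ := exists_good
  intro h
  have h1 := sound hr h
  rw [ev_tg, ev_tg] at h1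
  have h2 : gR r 3 k = ww r k := rfl
  have h3 : gR r 0 0 = 0 := by simp [gR]
  have h4 := ww_sq hr k
  rw [h2, h3] at h1
  rw [h1] at h4
  have h5 : uu r k = yy (2 * k.unpair.1) r := by simp [uu, hk]
  rw [h5] at h4
  exact yy_ne_zero hr.tr _ (by rw [← h4]; norm_num)

/-- Every set of PA degree computes an ordering of the field that computes it. -/
theorem exists_cone_exact {D : ℕ → Bool} (hD : IsPA D) :
    ∃ X : ℕ → Bool, Cone X ∧ TLe X D ∧ ∃ κ : ℕ → ℕ, Computable κ ∧
      ∀ i, D i = X (tg 3 (κ i)) := by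
  obtain ⟨r, hr⟩ := exists_good
  obtain ⟨X0, h1, h2⟩ := pa_basis hD s1_BadS ⟨_, pre_of_cone (exists_cone hr)⟩
  have hX0 := cone_of_pre h1
  obtain ⟨κ, dec, hκ, hdec, hst, hinv⟩ := exists_places
  let fl : ℕ → Bool := fun k => if st k = 0 then false else xor (X0 (tg 3 k)) (D (dec k))
  have hfl : ∀ k, st k = 0 → fl k = false := fun k hk => by simp [fl, hk]
  have hflD : TLe fl D := by
    rw [tLe_iff_SI] at h2 ⊢
    have h3 : SI D fun x : ℕ × Bool => (st x.1 = 0 ∧ x.2 = false) ∨ (¬ st x.1 = 0 ∧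
        ∃ b : Bool, X0 (tg 3 x.1) = b ∧ D (dec x.1) = xor b x.2) := by
      have hs : PrimrecPred fun x : ℕ × Bool => st x.1 = 0 :=
        Primrec.eq.comp (st_prim.comp Primrec.fst) (Primrec.const 0)
      refine SI.or (SI.of_prim (PrimrecPred.and hs
        (Primrec.eq.comp Primrec.snd (Primrec.const false)))) (SI.and (SI.of_prim hs.not) ?_)
      refine SI.ex (p := fun (x : ℕ × Bool) (b : Bool) => X0 (tg 3 x.1) = b ∧
        D (dec x.1) = xor b x.2) (SI.and ?_ ?_)
      · exact h2.comp (f := fun y : (ℕ × Bool) × Bool => (tg 3 y.1.1, y.2))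
          ((ptg (Primrec.const 3) (Primrec.fst.comp Primrec.fst)).pair Primrec.snd)
      · refine SI.comp_computable (f := fun y : (ℕ × Bool) × Bool => (dec y.1.1, xor y.2 y.1.2))
          SI.query ((hdec.comp (Computable.fst.comp Computable.fst)).pair ?_)
        have hx : Primrec fun y : (ℕ × Bool) × Bool => cond y.2 (!y.1.2) y.1.2 :=
          Primrec.cond Primrec.snd (Primrec.not.comp (Primrec.snd.comp Primrec.fst))
            (Primrec.snd.comp Primrec.fst)
        exact (hx.of_eq fun y => by rcases y with ⟨⟨n, a⟩, b⟩; cases a <;> cases b <;> rfl).to_comp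
    refine h3.of_eq fun x => ?_
    rcases x with ⟨k, b⟩
    by_cases hk : st k = 0
    · simp [fl, hk, eq_comm]
    · simp only [fl, hk, if_false, false_and, false_or, not_false_eq_true, true_and,
        exists_eq_left']
      cases X0 (tg 3 k) <;> cases D (dec k) <;> cases b <;> simp
  refine ⟨fun t => X0 (fi fl t), cone_flip hX0 hfl, tLe_flip h2 hflD, κ, hκ, fun i => ?_⟩
  show D i = X0 (fi fl (tg 3 (κ i)))
  have hne : ¬ st (κ i) = 0 := by rw [hst]; norm_num
  have hflk : fl (κ i) = xor (X0 (tg 3 (κ i))) (D i) := by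
    simp only [fl, hne, if_false, hinv]
  have hneg := cone_neg hX0 (root_ne_zero (hst i))
  rw [fi_tg, hflk]
  cases h3 : X0 (tg 3 (κ i)) <;> cases h4 : D i <;> simp [h3, hneg]

/-- the embedding direction for the computable field -/
theorem pa_of_embed' {r : ℝ} (hr : Good r) {D : ℕ → Bool} (K : FieldIn D)
    (lt : K.Carrier → K.Carrier → Prop) (hlt : IsOrdering lt)
    (hc : TLe (ind (ordCode lt)) D) (χ : (FC hr).Carrier →+* K.Carrier) : IsPA D :=
  pa_of_embed hr K lt hlt hc (χ.comp (eR hr).symm.toRingHom)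

open Classical in
theorem tLe_ind_orderCode {r : ℝ} (hr : Good r) (X : ℕ → Bool) :
    TLe (ind (orderCode (ltX hr X))) X := by
  have h := orderCode_tLe hr X
  unfold ind
  convert h

/-- the ordering given by a cone computes the cone on nonzero terms -/
theorem tLe_of_order {r : ℝ} (hr : Good r) {X : ℕ → Bool} (hX : Cone X) {D : ℕ → Bool}
    {κ : ℕ → ℕ} (hκ : Computable κ) (h : ∀ i, D i = X (tg 3 (κ i))) :
    TLe D (ind (orderCode (ltX hr X))) := by
  classical
  obtain ⟨nf, hnf, hnf'⟩ := exists_nf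
  refine tLe_of_computable (f := fun i => Nat.pair (nf (tg 0 0)) (nf (tg 3 (κ i)))) ?_ fun i => ?_
  · exact Primrec₂.natPair.to_comp.comp (Computable.const _)
      (hnf.comp (tg_prim.to_comp.comp (Computable.const 3) hκ))
  · have h1 : orderCode (ltX hr X) (Nat.pair (nf (tg 0 0)) (nf (tg 3 (κ i)))) ↔
        X (tg 3 (κ i)) = true := by
      have key : ltX hr X ⟨nf (tg 0 0), (hnf' _).1⟩ ⟨nf (tg 3 (κ i)), (hnf' _).1⟩ ↔
          X (tg 3 (κ i)) = true := by
        rw [ltX_iff hr hX]
        have e1 : eR hr (⟨nf (tg 3 (κ i)), (hnf' _).1⟩ : (FC hr).Carrier) = evF hr (tg 3 (κ i)) :=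
          (evF_eq_iff hr _ _).2 (hnf' _).2
        have e2 : eR hr (⟨nf (tg 0 0), (hnf' _).1⟩ : (FC hr).Carrier) = 0 := by
          rw [← evF_zero hr]
          exact (evF_eq_iff hr _ _).2 (hnf' _).2
        rw [e1, e2, sub_zero]
        constructor
        · rintro ⟨t, h2, h3⟩
          exact hX.congr _ _ ((evF_eq_iff hr _ _).1 h2) h3
        · intro h3
          exact ⟨_, rfl, h3⟩
      rw [← key]
      constructor
      · rintro ⟨a, b, h2, h3⟩
        rw [Nat.pair_eq_pair] at h3
        have ha : a = ⟨nf (tg 0 0), (hnf' _).1⟩ := Subtype.ext h3.1.symm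
        have hb : b = ⟨nf (tg 3 (κ i)), (hnf' _).1⟩ := Subtype.ext h3.2.symm
        rw [← ha, ← hb]
        exact h2
      · intro h2
        exact ⟨_, _, h2, rfl⟩
    rw [h]
    unfold ind
    cases hb : X (tg 3 (κ i))
    · rw [hb] at h1
      simp [h1]
    · rw [hb] at h1
      simp [h1]

end Pool.Agent.KS6_49.PA
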